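import Pool.Agent.helper17.EXC.Spec

/-!
# Project EXC, row NRM: an element which fixes all extremal points is the identity
-/

set_option autoImplicit false

open Finset

namespace Pool.Agent.EXC

/-- the elements of the torus are combinations of the coroots of the simple roots -/
theorem NRM_sum {n : ℕ} (C : Matrix (Fin n) (Fin n) ℤ) (F : Type) [Field F] (h : Fin n → F) :
    ((h, 0) : Lm C F) = ∑ i, h i • ht C (sr i) := by
  refine Prod.ext ?_ ?_
  · rw [Prod.fst_sum]
    funext j
    rw [Finset.sum_apply, Finset.sum_eq_single j]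
    · simp [ht, sr]
    · intro b _ hb
      simp [ht, sr, Ne.symm hb]
    · simp
  · rw [Prod.snd_sum]
    refine (Finset.sum_eq_zero fun i _ => ?_).symm
    simp

theorem NRM (hEXF : EXF_stmt) (hACT : ACT_stmt) : NRM_stmt := by
  intro n C _ F _ hβ c hc hfix
  obtain ⟨hAu, hEx, hXt, -⟩ := hEXF n C F hβ
  have hcA := hAu c hc
  -- the scalars
  have hk : ∀ α : Fin n → ℤ, ip C α α = 2 → ∃ κ : F, κ ≠ 0 ∧ c (E C α) = κ • (E C α : Lm C F) := by
    intro α hα
    obtain ⟨κ, hκ⟩ := hfix _ (hEx α hα)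
    refine ⟨κ, ?_, hκ⟩
    intro h0
    rw [h0, zero_smul] at hκ
    have h1 : (E C α : Lm C F) = 0 := by
      apply c.injective
      rw [hκ, map_zero]
    exact E_ne_zero C hα h1
  choose! κ hκ0 hκ using hk
  -- product one
  have h1 : ∀ α β : Fin n → ℤ, ip C α α = 2 → ip C β β = 2 → ip C α β = 1 → κ α = κ β := by
    intro α β hα hβ' hαβ
    have hγ : ip C (α - β) (α - β) = 2 := (sub_root_iff hα hβ').2 hαβ
    have hγβ : ip C (α - β) β = -1 := by rw [ip_sub_left, hαβ, hβ']; norm_num
    have hne : α ≠ β := by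
      intro e
      rw [e, hβ'] at hαβ
      omega
    obtain ⟨g, hg, hgX⟩ := (hXt _ (hEx _ hγ)).2.2.2.2.1 1
    have h2 := (hACT n C F (α - β) 1 hγ).2.1 β hβ' hγβ
    rw [sub_add_cancel, one_mul, ← hgX (E C β)] at h2
    have h3 : Ex C (g (E C β) : Lm C F) := (hXt _ (hEx _ hβ')).2.2.1 g hg
    obtain ⟨k, hk⟩ := hfix _ h3
    rw [h2, map_add, map_smul, hκ _ hα, hκ _ hβ', smul_add, smul_smul, smul_smul] at hk
    have e1 := congrArg (fun x => cf x β) hk
    have e2 := congrArg (fun x => cf x α) hk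
    simp only [cf_add, cf_smul, cf_E C hα, cf_E C hβ', if_neg hne, if_neg hne.symm, if_true,
      mul_one, mul_zero, add_zero, zero_add] at e1 e2
    have hs := sg_ne_zero (F := F) C (α - β) β
    rw [e1]
    apply mul_left_cancel₀ hs
    rw [e2, mul_comm]
  -- product minus one
  have h2 : ∀ α β : Fin n → ℤ, ip C α α = 2 → ip C β β = 2 → ip C α β = -1 → κ β = 1 := by
    intro α β hα hβ' hαβ
    have hs : ip C (α + β) (α + β) = 2 := (add_root_iff hα hβ').2 hαβ
    have hne : β ≠ -α := by
      intro e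
      rw [e, ip_neg_right, hα] at hαβ
      omega
    have e0 := br_E_E (F := F) C hα hβ'
    rw [if_neg hne, sub_zero] at e0
    have e1 := hcA.br (E C α) (E C β)
    rw [hκ _ hα, hκ _ hβ', br_smul_left, br_smul_right, e0, map_smul, hκ _ hs] at e1
    have e2 := congrArg (fun x => cf x (α + β)) e1
    simp only [cf_smul, cf_E C hs, if_true, mul_one] at e2
    have hsg := sg_ne_zero (F := F) C α β
    have e3 : κ (α + β) = κ α * κ β := by
      apply mul_left_cancel₀ hsg
      rw [e2]
      ring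
    have e4 : κ (α + β) = κ α := by
      refine h1 _ _ hs hα ?_
      rw [ip_add_left, hα, ip_comm C β α, hαβ]
      norm_num
    rw [e4] at e3
    have e5 : κ α * 1 = κ α * κ β := by rw [mul_one]; exact e3
    exact (mul_left_cancel₀ (hκ0 _ hα) e5).symm
  have h3 : ∀ α : Fin n → ℤ, ip C α α = 2 → c (E C α) = (E C α : Lm C F) := by
    intro α hα
    obtain ⟨β, hβ1, hβ2⟩ := hβ α hα
    rw [hκ _ hα, h2 β α hβ1 hα (by rw [ip_comm]; exact hβ2), one_smul]
  have h4 : ∀ α : Fin n → ℤ, ip C α α = 2 → c (ht C α) = (ht C α : Lm C F) := by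
    intro α hα
    have hn := neg_root C hα
    have e0 := br_E_E (F := F) C hα hn
    have e00 : ip C (0 : Fin n → ℤ) 0 ≠ 2 := by simp
    rw [if_pos rfl, add_neg_cancel, E_eq_zero C e00, smul_zero, zero_sub] at e0
    have e1 := hcA.br (E C α) (E C (-α))
    rw [h3 _ hα, h3 _ hn, e0, map_neg] at e1
    exact neg_injective e1
  refine LinearEquiv.ext fun x => ?_
  change c x = x
  refine Lm_ind C (P := fun x => c x = x) ?_ ?_ h3 ?_ x
  · intro x y hx hy
    rw [map_add, hx, hy]
  · intro k x hx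
    rw [map_smul, hx]
  · intro h
    rw [NRM_sum C F h, map_sum]
    refine Finset.sum_congr rfl fun i _ => ?_
    rw [map_smul, h4 _ (ip_sr_self C i)]

end Pool.Agent.EXC
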